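import Mathlib
import Pool.Agent.H.MP_77d395_lc.A

set_option autoImplicit false

namespace Pool.Agent.H.MP_d907e7_lc

open Set Filter Function Cardinal Topology Encodable Pool.Agent.H.MP_77d395_lc

def b : ℕ → ℕ
  | 0 => 0
  | n + 1 => (b n + 1) ^ 2

def C (f : ℕ → ℕ) : Prop := ∀ j, ∀ᶠ k in atTop, f k ≤ b (k - j)

def R (i u w : ℕ) : Prop := ∃ l : List ℕ, encode l = u ∧ l[i]? = some w

theorem bm : Monotone b := monotone_nat_of_le_succ fun n => by rw [b]; nlinarith

theorem R1 {i u w w' : ℕ} (h : R i u w) (h' : R i u w') : w = w' := by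
  obtain ⟨l, rfl, h⟩ := h
  obtain ⟨l', e, h'⟩ := h'
  exact Option.some.inj (h.symm.trans (encode_injective e ▸ h'))

theorem R2 {i u w : ℕ} (h : R i u w) : w < u := by
  obtain ⟨l, rfl, h⟩ := h
  replace h := List.mem_of_getElem? h
  induction l with
  | nil => simp at h
  | cons a l ih =>
    rw [encode_list_cons, Nat.lt_succ_iff]
    rcases List.mem_cons.1 h with rfl | h
    exacts [Nat.left_le_pair _ _, (ih h).le.trans (Nat.right_le_pair _ _)]

theorem CL (L : List (ℕ → ℕ)) (h : ∀ f ∈ L, C f) : C fun k => encode (L.map (· k)) := by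
  induction L with
  | nil => exact fun j => by simp
  | cons f L ih =>
    refine fun j => ((h f (by simp) (j + 1)).and ((ih (fun g c => h g (by simp [c])) (j + 1)).and
      (eventually_gt_atTop j))).mono fun k ⟨h1, h2, h3⟩ => ?_
    rw [show k - j = k - (j + 1) + 1 by omega, b]
    exact (Nat.pair_lt_max_add_one_sq _ _).trans_le (Nat.pow_le_pow_left
      (Nat.succ_le_succ (max_le h1 h2)) _)

theorem step (F : ℕ → ℕ → ℕ) (h : ∀ i, C (F i)) :
    ∃ g, C g ∧ (∀ k, g k ≤ b k) ∧ ∀ i, ∀ᶠ k in atTop, R i (g k) (F i k) := by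
  classical
  choose N hN using fun n => eventually_atTop.1 (CL ((List.range n).map F) (by
    simpa using fun i _ => h i) n)
  let n : ℕ → ℕ := fun k => Nat.findGreatest (fun n => N n ≤ k) k
  have h1 : ∀ j, ∀ᶠ k in atTop, j ≤ n k ∧ N (n k) ≤ k := fun j =>
    ((eventually_ge_atTop j).and (eventually_ge_atTop (N j))).mono fun k h =>
      ⟨Nat.le_findGreatest h.1 h.2, Nat.findGreatest_spec (P := fun n => N n ≤ k) h.1 h.2⟩
  refine ⟨fun k => min (encode (((List.range (n k)).map F).map (· k))) (b k), fun j =>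
    (h1 j).mono fun k c => (min_le_left _ _).trans ((hN _ _ c.2).trans (bm (by omega))),
    fun k => min_le_right _ _, fun i => (h1 (i + 1)).mono fun k c =>
      ⟨_, (min_eq_left ((hN _ _ c.2).trans (bm (by omega)))).symm, by
        simp [List.getElem?_range (show i < n k from c.1)]⟩⟩

theorem sq : ∃ a : I → ℕ → ℕ, (∀ α k, a α k ≤ b k) ∧
    ∀ α β, α < β → ∃ i, ∀ᶠ k in atTop, R i (a β k) (a α k) := by
  classical
  let P : ∀ β : I, (∀ α, α < β → ℕ → ℕ) → (ℕ → ℕ) → Prop := fun β f g =>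
    C g ∧ (∀ k, g k ≤ b k) ∧ ∀ α h, ∃ i, ∀ᶠ k in atTop, R i (g k) (f α h k)
  let a : I → ℕ → ℕ := wellFounded_lt.fix fun β ih => Classical.epsilon (P β ih)
  have : ∀ β, P β (fun α _ => a α) (a β) := fun β => by
    refine wellFounded_lt.induction (C := fun β => P β (fun α _ => a α) (a β)) β fun β ih => ?_
    rw [show a β = _ from wellFounded_lt.fix_eq _ β]
    apply Classical.epsilon_spec
    obtain ⟨ξ, hξ⟩ := countable_iff_exists_subset_range.1 (cI β)
    obtain ⟨g, g1, g2, g3⟩ := step (fun i => if ξ i < β then a (ξ i) else 0) fun i => by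
      split_ifs with h
      exacts [(ih _ h).1, fun j => by simp]
    refine ⟨g, g1, g2, fun α h => ?_⟩
    obtain ⟨i, rfl⟩ := hξ h.le
    exact ⟨i, by simpa only [if_pos h] using g3 i⟩
  exact ⟨a, fun α => (this α).2.1, fun α β => (this β).2.2 α⟩

open Classical in
noncomputable def τ (S : Set ℕ) (m : ℕ) : ℝ := ∑' n, if n + m ∈ S then (1 / 4) ^ (n + m) else 0

open Classical in
theorem τs (S : Set ℕ) (m : ℕ) : (τ S m = (if m ∈ S then (1 / 4) ^ m else 0) + τ S (m + 1)) ∧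
    0 ≤ τ S m ∧ τ S m ≤ 4 / 3 * (1 / 4) ^ m := by
  have g : HasSum (fun n => (1 / 4 : ℝ) ^ (n + m)) (4 / 3 * (1 / 4) ^ m) := by
    simpa only [pow_add, show (1 - 1 / 4 : ℝ)⁻¹ = 4 / 3 by norm_num] using
      (hasSum_geometric_of_lt_one (r := (1 / 4 : ℝ)) (by norm_num) (by norm_num)).mul_right
        ((1 / 4) ^ m)
  have h0 : ∀ n, (0 : ℝ) ≤ if n + m ∈ S then (1 / 4) ^ (n + m) else 0 := fun n => by positivity
  have h1 : ∀ n, (if n + m ∈ S then (1 / 4) ^ (n + m) else 0) ≤ (1 / 4 : ℝ) ^ (n + m) := fun n => by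
    split_ifs
    exacts [le_rfl, by positivity]
  have s := g.summable.of_nonneg_of_le h0 h1
  refine ⟨?_, tsum_nonneg h0, g.tsum_eq ▸ s.tsum_le_tsum h1 g.summable⟩
  rw [τ, s.tsum_eq_zero_add, τ]
  simp only [zero_add, add_assoc, add_comm 1 m]

theorem τd {S T : Set ℕ} {m : ℕ} (h : ∀ n < m, n ∈ S ↔ n ∈ T) : τ S 0 - τ T 0 = τ S m - τ T m := by
  induction m with
  | zero => rfl
  | succ m ih =>
    rw [ih fun n c => h n (by omega), (τs S m).1, (τs T m).1]
    by_cases c : m ∈ S <;> simp [← h m m.lt_succ_self, c]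

theorem lt {S T U V : Set ℕ} {m : ℕ} (h : ∀ n < m, n ∈ S ↔ n ∈ T) (g : ∃ n < m, ¬ (n ∈ U ↔ n ∈ V)) :
    |τ S 0 - τ T 0| < |τ U 0 - τ V 0| := by
  classical
  obtain ⟨g1, g2⟩ := Nat.find_spec g
  rw [τd h, τd (m := Nat.find g) fun n c => not_not.1 fun e => Nat.find_min g c ⟨c.trans g1, e⟩,
    (τs U _).1, (τs V _).1]
  generalize Nat.find g = k at g1 g2
  obtain ⟨-, a1, a2⟩ := τs S m
  obtain ⟨-, a3, a4⟩ := τs T m
  obtain ⟨-, a5, a6⟩ := τs U (k + 1)
  obtain ⟨-, a7, a8⟩ := τs V (k + 1)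
  have : (1 / 4 : ℝ) ^ m ≤ (1 / 4) ^ (k + 1) := pow_le_pow_of_le_one (by norm_num) (by norm_num) g1
  have : (0 : ℝ) < (1 / 4) ^ k := by positivity
  rw [pow_succ] at *
  rw [abs_lt, neg_lt, lt_abs, lt_abs]
  by_cases c : k ∈ U <;> by_cases d : k ∈ V <;> simp only [c, d, not_true, if_true, if_false] at g2 ⊢
  · exact ⟨.inl (by linarith), .inl (by linarith)⟩
  · exact ⟨.inr (by linarith), .inr (by linarith)⟩

def P : ℕ → ℕ
  | 0 => 0
  | n + 1 => P n + b (n + 1) + 1

theorem P1 (k : ℕ) : b k ≤ P k := by cases k <;> simp [P, b]; omega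

theorem P2 {u v : ℕ → ℕ} (hu : ∀ k, u k ≤ b k) (hv : ∀ k, v k ≤ b k) {k : ℕ}
    (h : P k - u k ∈ range fun j => P j - v j) : u k = v k := by
  have m : Monotone P := monotone_nat_of_le_succ fun n => by rw [P]; omega
  have : ∀ j k w, j < k → w ≤ b k → P j < P k - w := fun j k w h c => by
    obtain ⟨k, rfl⟩ := Nat.exists_eq_add_one_of_ne_zero (Nat.ne_zero_of_lt h)
    have := m (Nat.le_of_lt_succ h)
    rw [P]; omega
  obtain ⟨j, h⟩ := h
  have := P1 k
  have := hu k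
  have := hv k
  rcases lt_trichotomy j k with c | rfl | c
  · have := ‹∀ j k w, j < k → w ≤ b k → _› j k _ c (hu k); simp only at h; omega
  · simp only at h; omega
  · have := ‹∀ j k w, j < k → w ≤ b k → _› k j _ c (hv j); simp only at h; omega

noncomputable def φ (u : ℕ → ℕ) : ℝ := τ (range fun j => P j - u j) 0

theorem df {u v : ℕ → ℕ} (h1 : ∀ k, u k ≤ b k) (h2 : ∀ k, v k ≤ b k) (ne : u ≠ v) :
    ∃ n, ¬ (n ∈ range (fun j => P j - u j) ↔ n ∈ range fun j => P j - v j) := by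
  by_contra! c
  exact ne (funext fun k => P2 h1 h2 ((c _).1 ⟨k, rfl⟩))

theorem key {u v u' v' : ℕ → ℕ} (h1 : ∀ k, u k ≤ b k) (h2 : ∀ k, v k ≤ b k) (h3 : ∀ k, u' k ≤ b k)
    (h4 : ∀ k, v' k ≤ b k) {i K : ℕ} (e : ∀ k < K, u k = u' k) (r : ∀ k ≥ K, R i (v k) (u k))
    (r' : ∀ k ≥ K, R i (v' k) (u' k)) (ne : u ≠ u') : |φ u - φ u'| < |φ v - φ v'| := by
  classical
  have := df h1 h3 ne
  refine lt (m := Nat.find this) (fun n c => not_not.1 (Nat.find_min this c)) ?_
  obtain ⟨k, k1, k2⟩ : ∃ k, u k ≠ u' k ∧ P k - max (u k) (u' k) ≤ Nat.find this := by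
    have s := Nat.find_spec this
    by_cases c : Nat.find this ∈ range fun j => P j - u j
    · obtain ⟨k, hk⟩ := id c
      exact ⟨k, fun e => s (iff_of_true c ⟨k, by simpa [e] using hk⟩), by simp only at hk; omega⟩
    · obtain ⟨k, hk⟩ := not_not.1 fun d => s (iff_of_false c d)
      exact ⟨k, fun e => c ⟨k, by simpa [e] using hk⟩, by simp only at hk; omega⟩
  have kK := not_lt.1 fun c => k1 (e k c)
  have := R2 (r k kK)
  have := R2 (r' k kK)
  have := P1 k
  have := h2 k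
  have := h4 k
  have n : v k ≠ v' k := fun c => k1 (R1 (r k kK) (c ▸ r' k kK))
  rcases le_total (v k) (v' k) with c | c
  · exact ⟨P k - v' k, by omega, fun d => n (P2 h4 h2 (d.2 ⟨k, rfl⟩)).symm⟩
  · exact ⟨P k - v k, by omega, fun d => n (P2 h2 h4 (d.1 ⟨k, rfl⟩))⟩

theorem main : ∃ X : Set ℝ, (∀ U, IsOpen U → U.Nonempty → #↥(X ∩ U) = ℵ₁) ∧
    ∀ f : X → X, Injective f → (∀ x y, dist (f x) (f y) ≤ dist x y) → ∀ x, f x = x := by
  obtain ⟨a, a1, a2⟩ := sq
  obtain ⟨g⟩ := (le_def (I × ℚ × ℚ) I).1 (by simp [mkI])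
  have : ∀ α, ∃ q : ℚ, (invFun g α).2.1 < (invFun g α).2.2 →
      q + φ (a α) ∈ Ioo ((invFun g α).2.1 : ℝ) (invFun g α).2.2 := fun α => by
    by_cases h : (invFun g α).2.1 < (invFun g α).2.2
    · obtain ⟨q, h1, h2⟩ := exists_rat_btwn (sub_lt_sub_right (Rat.cast_lt.2 h) (φ (a α)))
      exact ⟨q, fun _ => ⟨by linarith, by linarith⟩⟩
    · exact ⟨0, fun c => (h c).elim⟩
  choose q hq using this
  let x : I → ℝ := fun α => q α + φ (a α)
  have φi : Injective fun α => φ (a α) := .of_lt_imp_ne fun α β h e => by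
    obtain ⟨i, c⟩ := a2 α β h
    obtain ⟨k, c⟩ := c.exists
    obtain ⟨n, hn⟩ := df (a1 α) (a1 β) fun e => (R2 c).ne (congrFun e k)
    simpa [← φ.eq_1, e] using lt (S := ∅) (T := ∅) (m := n + 1) (by simp) ⟨n, n.lt_succ_self, hn⟩
  have D : ∀ U, IsOpen U → U.Nonempty → ¬ (range x ∩ U).Countable := fun U u ⟨y, hy⟩ c => by
    obtain ⟨l, r, ⟨h1, h2⟩, h3⟩ := mem_nhds_iff_exists_Ioo_subset.1 (u.mem_nhds hy)
    obtain ⟨s, s1, s2⟩ := exists_rat_btwn h1
    obtain ⟨t, t1, t2⟩ := exists_rat_btwn h2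
    have := c.to_subtype
    obtain ⟨α, hα⟩ := unc (((countable_range fun p : ℚ × ↥(range x ∩ U) => p.2.1 - p.1).preimage
      φi).preimage (f := fun α => g (α, s, t)) fun _ _ h => congrArg Prod.fst (g.injective h))
    have := hq (g (α, s, t))
    rw [leftInverse_invFun g.injective] at this
    exact hα ⟨(q _, ⟨x _, ⟨_, rfl⟩, h3 (Ioo_subset_Ioo s1.le t2.le
      (this (Rat.cast_lt.1 (s2.trans t1))))⟩), add_sub_cancel_left _ _⟩
  refine ⟨range x, fun U u n => le_antisymm ((mk_le_mk_of_subset inter_subset_left).trans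
    (mkI ▸ mk_range_le)) (not_lt.1 fun c => D U u n (le_aleph0_iff_set_countable.1
      (lt_aleph_one_iff.1 c))), fun f fi fn y => ?_⟩
  choose ρ hρ using fun y : range x => y.2
  have cE : {y | ρ y < ρ (f y)}.Countable := by
    choose i K hK using fun y : {y | ρ y < ρ (f y)} => (a2 _ _ y.2).imp fun _ => eventually_atTop.1
    refine Injective.countable (f := fun y => (i y, q (ρ y), q (ρ (f y)),
      (List.range (K y)).map (a (ρ y)))) fun y z e => by_contra fun ne => ?_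
    simp only [Prod.mk.injEq] at e
    obtain ⟨e1, e2, e3, e4⟩ := e
    have e5 : K y = K z := by simpa using congrArg List.length e4
    have := fn y z
    simp only [Subtype.dist_eq, ← hρ, Real.dist_eq, x, e2, e3, add_sub_add_left_eq_sub] at this
    refine this.not_gt (key (a1 _) (a1 _) (a1 _) (a1 _) (fun k h => ?_) (hK y) (e1 ▸ e5 ▸ hK z)
      fun c => ne (Subtype.ext (Subtype.ext ?_)))
    · exact List.map_inj_left.1 (e5 ▸ e4) k (List.mem_range.2 h)
    · rw [← hρ, ← hρ]; simp only [x, c, e2]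
  have cF : {y | f y ≠ y}.Countable := (countable_iUnion fun n => cE.preimage
    (fi.iterate n)).mono fun y h => by_contra fun c => h <| by
      obtain ⟨_, ⟨n, rfl⟩, hn⟩ := wellFounded_lt.has_min (range fun n => ρ (f^[n] y))
        (range_nonempty _)
      have := le_antisymm (not_lt.1 fun d => c (mem_iUnion.2 ⟨n, d⟩))
        (not_lt.1 (hn _ ⟨n + 1, congrArg ρ (iterate_succ_apply' f n y)⟩))
      refine fi.iterate n (Subtype.ext ?_)
      rw [← iterate_succ_apply, iterate_succ_apply', ← hρ, this, hρ]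
  refine eq_of_forall_dist_le fun ε h => ?_
  obtain ⟨z, ⟨z1, z2⟩, z3⟩ := not_subset.1 fun c => D _ (Metric.isOpen_ball (x := y.1) (ε := ε / 2))
    (Metric.nonempty_ball.2 (half_pos h)) ((cF.image Subtype.val).mono c)
  have e : f ⟨z, z1⟩ = ⟨z, z1⟩ := by_contra fun c => z3 ⟨_, c, rfl⟩
  have := fn y ⟨z, z1⟩
  have := dist_triangle (f y) ⟨z, z1⟩ y
  have : dist (⟨z, z1⟩ : range x) y < ε / 2 := z2
  rw [e, dist_comm y] at *
  linarith

end Pool.Agent.H.MP_d907e7_lc
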