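import Mathlib

set_option autoImplicit false

namespace Pool.Agent.H.MP_d907e7_lc

open Set Filter Function Cardinal MeasureTheory
open scoped ENNReal

/-- dense subsets of a forcing notion -/
def Dns {P : Type} [Preorder P] (D : Set P) : Prop := ∀ p, ∃ d ∈ D, d ≤ p

/-- sets predense below a condition -/
def Pre {P : Type} [Preorder P] (D : Set P) (q : P) : Prop := ∀ r ≤ q, ∃ d ∈ D, ∃ s, s ≤ r ∧ s ≤ d

/-- properness: for club many countable sets `N` of conditions and sets of conditions, every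
condition in `N` has an `N`-generic extension -/
def Proper (P : Type) [Preorder P] : Prop :=
  ∃ F : List (P ⊕ Set P) → P ⊕ Set P, ∀ N : Set (P ⊕ Set P), N.Countable →
    (∀ l : List (P ⊕ Set P), (∀ x ∈ l, x ∈ N) → F l ∈ N) → ∀ p, Sum.inl p ∈ N → ∃ q ≤ p,
      ∀ D, Dns D → Sum.inr D ∈ N → Pre {d ∈ D | Sum.inl d ∈ N} q

/-- the Proper Forcing Axiom -/
def PFA : Prop :=
  ∀ (P : Type) [Preorder P] [Nonempty P], Proper P → ∀ 𝒟 : Set (Set P), #𝒟 ≤ ℵ₁ →
    (∀ D ∈ 𝒟, Dns D) → ∃ G : Set P, (∀ p ∈ G, ∀ q, p ≤ q → q ∈ G) ∧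
      (∀ p ∈ G, ∀ q ∈ G, ∃ r ∈ G, r ≤ p ∧ r ≤ q) ∧ ∀ D ∈ 𝒟, (G ∩ D).Nonempty

theorem pr (P : Type) [Preorder P] [Nonempty P] [Countable P] : Proper P := by
  obtain ⟨e, he⟩ := exists_surjective_nat P
  refine ⟨fun l => .inl (e l.length), fun N _ h p _ => ⟨p, le_rfl, fun D d _ r _ => ?_⟩⟩
  obtain ⟨s, s1, s2⟩ := d r
  obtain ⟨n, rfl⟩ := he s
  exact ⟨_, ⟨s1, by simpa using h (.replicate n (.inl (e 0))) fun x hx =>
    List.eq_of_mem_replicate hx ▸ h [] (by simp)⟩, _, s2, le_rfl⟩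

def Co : Type := List ℚ

instance : Preorder Co where
  le s t := List.IsPrefix t s
  le_refl := List.prefix_refl
  le_trans _ _ _ h g := g.trans h

theorem nul (h : PFA) (X : Set ℝ) (hX : #X ≤ ℵ₁) : volume X = 0 := by
  classical
  have : Nonempty Co := ⟨[]⟩
  have : Countable Co := inferInstanceAs (Countable (List ℚ))
  obtain ⟨G, -, g1, g2⟩ := h Co (pr Co) (range fun p : X × ℕ => {s : List ℚ | ∃ i ≥ p.2, ∃ q,
    s[i]? = some q ∧ p.1.1 ∈ Metric.ball (q : ℝ) (2⁻¹ ^ i)}) (mk_range_le.trans (by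
      simpa using mul_le_of_le (aleph0_le_aleph 1) hX (aleph0_le_aleph 1))) (by
      rintro _ ⟨⟨x, n⟩, rfl⟩ (s : List ℚ)
      obtain ⟨q, hq⟩ := exists_rat_near x.1 (ε := 2⁻¹ ^ (s.length + n)) (by positivity)
      have : (s ++ List.replicate (n + 1) q)[s.length + n]? = some q := by simp
      exact ⟨(s ++ .replicate (n + 1) q : List ℚ), ⟨s.length + n, by simp, q, this,
        hq⟩, List.prefix_append _ _⟩)
  let c : ℕ → ℚ := fun i => Classical.epsilon fun q => ∃ s : List ℚ, s ∈ G ∧ s[i]? = some q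
  refine measure_mono_null (fun x hx => frequently_atTop.2 fun n => ?_)
    (measure_setOfPred_frequently_eq_zero (p := fun i x => x ∈ Metric.ball (c i : ℝ) (2⁻¹ ^ i)) ?_)
  · obtain ⟨s, s1, i, i1, q, q1, q2⟩ := g2 _ ⟨(⟨x, hx⟩, n), rfl⟩
    obtain ⟨t, t1, t2⟩ : ∃ s : List ℚ, s ∈ G ∧ s[i]? = some (c i) :=
      Classical.epsilon_spec (p := fun q => ∃ s : List ℚ, s ∈ G ∧ s[i]? = some q) ⟨q, s, s1, q1⟩
    obtain ⟨r, -, ⟨u, r1⟩, v, r2⟩ := g1 s s1 t t1
    have := congrArg (·[i]?) (r1.trans r2.symm)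
    simp only [List.getElem?_append_left (List.getElem?_eq_some_iff.1 q1).1,
      List.getElem?_append_left (List.getElem?_eq_some_iff.1 t2).1, q1, t2, Option.some.injEq] at this
    exact ⟨i, i1, this ▸ q2⟩
  · simp only [ofPred_mem_eq, Real.volume_ball]
    exact (Summable.tsum_ofReal_lt_top (by
      simpa using summable_geometric_two.mul_left 2)).ne

end Pool.Agent.H.MP_d907e7_lc
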